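import Mathlib
import Pool.Agent.X70.ParTree

/-!
# MP_fe24f9_co, question Q1: proof

For every `t ≥ 1`, every forest on at most `N(t) = (t^3+6t^2+17t+12)/6` vertices has `f(F) ≤ t`,
and there is a tree on `N(t)+1` vertices with `f = t+1` (at least `t+1`).
-/

set_option autoImplicit false

namespace Pool.Agent.Results.MP_fe24f9_co.SharpThreshold

open SimpleGraph

/-! ### Definitions -/

/-- The degree of `w` in `H`. -/
noncomputable def deg {W : Type} (H : SimpleGraph W) (w : W) : ℕ := Nat.card {u // H.Adj w u}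

/-- At least two vertices of `H` have the maximum degree of `H`. -/
def TwoMax {W : Type} (H : SimpleGraph W) : Prop :=
  ∃ u v : W, u ≠ v ∧ (∀ w, deg H w ≤ deg H u) ∧ ∀ w, deg H w ≤ deg H v

/-- The graph `G - B`. -/
def del {V : Type} (G : SimpleGraph V) (B : Finset V) : SimpleGraph {v : V // v ∉ B} :=
  G.comap Subtype.val

/-- The least number of vertices whose deletion leaves a graph with at least two vertices of
maximum degree, or with fewer than two vertices. -/
noncomputable def f {V : Type} (G : SimpleGraph V) : ℕ :=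
  sInf {k | ∃ B : Finset V, B.card = k ∧ (TwoMax (del G B) ∨ Nat.card {v : V // v ∉ B} < 2)}

/-- The threshold. -/
def N (t : ℕ) : ℕ := (t ^ 3 + 6 * t ^ 2 + 17 * t + 12) / 6

theorem choose_two_succ (n : ℕ) : (n + 1).choose 2 = n.choose 2 + n := by
  have h : (n + 1).choose (1 + 1) = n.choose 1 + n.choose (1 + 1) := Nat.choose_succ_succ' n 1
  rw [Nat.choose_one_right] at h
  have h2 : (n + 1).choose 2 = n + n.choose 2 := h
  omega

theorem choose_three_succ (n : ℕ) : (n + 1).choose 3 = n.choose 3 + n.choose 2 := by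
  have h : (n + 1).choose (2 + 1) = n.choose 2 + n.choose (2 + 1) := Nat.choose_succ_succ' n 2
  have h2 : (n + 1).choose 3 = n.choose 2 + n.choose 3 := h
  omega

/-! ### Reformulation inside `V` -/

section

variable {V : Type} [Fintype V]

open Classical in
/-- neighbours of `v` outside `B` -/
noncomputable def nb (G : SimpleGraph V) (B : Finset V) (v : V) : Finset V :=
  Finset.univ.filter (fun u => u ∉ B ∧ G.Adj v u)

theorem mem_nb {G : SimpleGraph V} {B : Finset V} {v u : V} :
    u ∈ nb G B v ↔ u ∉ B ∧ G.Adj v u := by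
  simp [nb]

theorem deg_del (G : SimpleGraph V) (B : Finset V) (v : {v : V // v ∉ B}) :
    deg (del G B) v = (nb G B v.1).card := by
  classical
  unfold deg
  have e : {u : {v : V // v ∉ B} // (del G B).Adj v u} ≃ {u // u ∈ nb G B v.1} :=
    { toFun := fun x => ⟨x.1.1, mem_nb.2 ⟨x.1.2, x.2⟩⟩
      invFun := fun y => ⟨⟨y.1, (mem_nb.1 y.2).1⟩, (mem_nb.1 y.2).2⟩
      left_inv := fun x => rfl
      right_inv := fun y => rfl }
  rw [Nat.card_congr e, Nat.card_eq_fintype_card, Fintype.card_coe]

/-- `B` is a good deletion set. -/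
def Good (G : SimpleGraph V) (B : Finset V) : Prop :=
  (∃ u v : V, u ∉ B ∧ v ∉ B ∧ u ≠ v ∧ (∀ w, w ∉ B → (nb G B w).card ≤ (nb G B u).card) ∧
    ∀ w, w ∉ B → (nb G B w).card ≤ (nb G B v).card) ∨ Fintype.card V < B.card + 2

theorem good_iff (G : SimpleGraph V) (B : Finset V) :
    (TwoMax (del G B) ∨ Nat.card {v : V // v ∉ B} < 2) ↔ Good G B := by
  classical
  have h2 : Nat.card {v : V // v ∉ B} < 2 ↔ Fintype.card V < B.card + 2 := by
    have : Nat.card {v : V // v ∉ B} = Fintype.card V - B.card := by
      rw [Nat.card_eq_fintype_card, ← Finset.card_compl, ← Fintype.card_coe]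
      apply Fintype.card_congr
      exact Equiv.subtypeEquivRight (by simp)
    have hle : B.card ≤ Fintype.card V := Finset.card_le_univ B
    omega
  unfold Good
  rw [h2]
  apply or_congr_left
  constructor
  · rintro ⟨u, v, hne, hu, hv⟩
    refine ⟨u.1, v.1, u.2, v.2, fun h => hne (Subtype.ext h), ?_, ?_⟩
    · intro w hw
      have := hu ⟨w, hw⟩
      rwa [deg_del, deg_del] at this
    · intro w hw
      have := hv ⟨w, hw⟩
      rwa [deg_del, deg_del] at this
  · rintro ⟨u, v, hu, hv, hne, h1, h2⟩
    refine ⟨⟨u, hu⟩, ⟨v, hv⟩, fun h => hne (congrArg Subtype.val h), ?_, ?_⟩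
    · intro w
      rw [deg_del, deg_del]
      exact h1 w.1 w.2
    · intro w
      rw [deg_del, deg_del]
      exact h2 w.1 w.2

open Classical in
/-- number of edges of `G - B` -/
noncomputable def E (G : SimpleGraph V) (B : Finset V) : ℕ :=
  (Finset.univ.filter (fun e : Sym2 V => e ∈ G.edgeSet ∧ ∀ v ∈ e, v ∉ B)).card

open Classical in
theorem E_ge (G : SimpleGraph V) (B : Finset V) {c : V} (hc : c ∉ B) :
    E G (insert c B) + (nb G B c).card ≤ E G B := by
  have h1 : (nb G B c).card = ((nb G B c).image (fun u => s(c, u))).card := by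
    rw [Finset.card_image_of_injOn]
    intro a ha b _ h
    simp only [Sym2.eq_iff] at h
    rcases h with h | h
    · exact h.2
    · exact absurd h.2.symm (mem_nb.1 ha).2.ne
  unfold E
  rw [h1, ← Finset.card_union_of_disjoint]
  · apply Finset.card_le_card
    intro e he
    rw [Finset.mem_union] at he
    rw [Finset.mem_filter]
    refine ⟨Finset.mem_univ _, ?_⟩
    rcases he with he | he
    · rw [Finset.mem_filter] at he
      refine ⟨he.2.1, fun v hv => ?_⟩
      have := he.2.2 v hv
      exact fun h => this (Finset.mem_insert_of_mem h)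
    · obtain ⟨u, hu, rfl⟩ := Finset.mem_image.1 he
      have hu' := mem_nb.1 hu
      refine ⟨hu'.2, fun v hv => ?_⟩
      rcases Sym2.mem_iff.1 hv with rfl | rfl
      · exact hc
      · exact hu'.1
  · rw [Finset.disjoint_left]
    intro e he he'
    rw [Finset.mem_filter] at he
    obtain ⟨u, hu, rfl⟩ := Finset.mem_image.1 he'
    exact he.2.2 c (Sym2.mem_mk_left _ _) (Finset.mem_insert_self _ _)

/-! ### Acyclicity -/

theorem acyc {G : SimpleGraph V} (hG : G.IsAcyclic) {c w a b : V} (hcw : c ≠ w)
    (ha : G.Adj c a) (hb : G.Adj c b) (ha' : a = w ∨ G.Adj w a) (hb' : b = w ∨ G.Adj w b) :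
    a = b := by
  have key : ∀ x, G.Adj c x → (x = w ∨ G.Adj w x) → ∃ p : G.Walk c w, p.IsPath ∧ p.snd = x := by
    intro x hx hx'
    rcases hx' with rfl | hx'
    · exact ⟨Walk.cons hx Walk.nil, by simp [hcw], by simp⟩
    · refine ⟨Walk.cons hx (Walk.cons hx'.symm Walk.nil), ?_, by simp⟩
      simp [hcw, hx.ne, hx'.ne.symm]
  obtain ⟨p, hp, hpa⟩ := key a ha ha'
  obtain ⟨q, hq, hqb⟩ := key b hb hb'
  have := (hG.subsingleton_path c w).elim ⟨p, hp⟩ ⟨q, hq⟩
  have h2 : p = q := congrArg Subtype.val this
  rw [← hpa, ← hqb, h2]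

theorem E_le {G : SimpleGraph V} (hG : G.IsAcyclic) [Nonempty V] :
    E G ∅ + 1 ≤ Fintype.card V := by
  classical
  obtain ⟨T, hGT, hT⟩ := exists_maximal_isAcyclic_of_le_isAcyclic (G := ⊤) (H := G) le_top hG
  have hT' : T.IsTree := by
    rw [← maximal_isAcyclic_iff_isTree]
    refine ⟨hT.1.2, fun y hy hle => hT.2 ⟨le_top, hy⟩ hle⟩
  rw [← hT'.card_edgeFinset]
  unfold E
  apply Nat.succ_le_succ
  apply Finset.card_le_card
  intro e he
  rw [Finset.mem_filter] at he
  rw [mem_edgeFinset]
  exact edgeSet_mono hGT he.2.1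

/-! ### The lower bound on the number of edges -/

theorem key {G : SimpleGraph V} (hG : G.IsAcyclic) :
    ∀ (g : ℕ) (B0 : Finset V), (∀ B, B0 ⊆ B → B.card < B0.card + (g + 1) → ¬ Good G B) →
      (∃ c, c ∉ B0 ∧ 1 + (g + 2).choose 2 ≤ (nb G B0 c).card) ∧
        (g + 1) + (g + 3).choose 3 ≤ E G B0 := by
  classical
  have maxv : ∀ B0 : Finset V, ¬ Good G B0 → ∃ c, c ∉ B0 ∧
      (∀ w, w ∉ B0 → (nb G B0 w).card ≤ (nb G B0 c).card) ∧ ∃ v, v ∉ B0 ∧ v ≠ c := by
    intro B0 h
    have hcard : B0.card + 2 ≤ Fintype.card V := by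
      by_contra hc
      exact h (Or.inr (by omega))
    have h1 : 1 < (B0ᶜ).card := by rw [Finset.card_compl]; omega
    obtain ⟨c, hc, hmax⟩ := Finset.exists_max_image B0ᶜ (fun w => (nb G B0 w).card)
      (Finset.card_pos.1 (by omega))
    obtain ⟨v, hv, hvc⟩ := Finset.exists_mem_ne h1 c
    refine ⟨c, by simpa using hc, fun w hw => hmax w (by simpa using hw), v, by simpa using hv, hvc⟩
  have two : ∀ B0 : Finset V, ¬ Good G B0 → ∀ c, c ∉ B0 →
      (∀ w, w ∉ B0 → (nb G B0 w).card ≤ (nb G B0 c).card) → ∀ v, v ∉ B0 → v ≠ c →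
      2 ≤ (nb G B0 c).card := by
    intro B0 h c hc hmax v hv hvc
    by_contra hlt
    apply h
    by_cases h0 : (nb G B0 c).card = 0
    · refine Or.inl ⟨c, v, hc, hv, hvc.symm, hmax, fun w hw => ?_⟩
      have := hmax w hw
      omega
    · have h1 : (nb G B0 c).card = 1 := by omega
      obtain ⟨u, hu⟩ := Finset.card_pos.1 (by omega : 0 < (nb G B0 c).card)
      have hu' := mem_nb.1 hu
      refine Or.inl ⟨c, u, hc, hu'.1, hu'.2.ne, hmax, fun w hw => ?_⟩
      have h2 := hmax w hw
      have h3 : 0 < (nb G B0 u).card := Finset.card_pos.2 ⟨c, mem_nb.2 ⟨hc, hu'.2.symm⟩⟩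
      omega
  intro g
  induction g with
  | zero =>
    intro B0 h
    have hB := h B0 (Finset.Subset.refl _) (by omega)
    obtain ⟨c, hc, hmax, v, hv, hvc⟩ := maxv B0 hB
    have h2 := two B0 hB c hc hmax v hv hvc
    refine ⟨⟨c, hc, by simpa using h2⟩, ?_⟩
    have h3 := E_ge G B0 hc
    have h4 : (0 + 3).choose 3 = 1 := by decide
    omega
  | succ g ih =>
    intro B0 h
    have hB := h B0 (Finset.Subset.refl _) (by omega)
    obtain ⟨c, hc, hmax, v, hv, hvc⟩ := maxv B0 hB
    have hc1 : (insert c B0).card = B0.card + 1 := Finset.card_insert_of_notMem hc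
    obtain ⟨⟨w, hw, hwd⟩, hE⟩ := ih (insert c B0) (fun B hsub hcard =>
      h B ((Finset.subset_insert _ _).trans hsub) (by omega))
    have hwc : w ≠ c := fun e => hw (by rw [e]; exact Finset.mem_insert_self _ _)
    have hw0 : w ∉ B0 := fun e => hw (Finset.mem_insert_of_mem e)
    -- second largest degree
    obtain ⟨w', hw', hmax'⟩ := Finset.exists_max_image (B0ᶜ.erase c) (fun x => (nb G B0 x).card)
      ⟨w, Finset.mem_erase.2 ⟨hwc, by simpa using hw0⟩⟩
    have hw'c : w' ≠ c := (Finset.mem_erase.1 hw').1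
    have hw'0 : w' ∉ B0 := by simpa using (Finset.mem_erase.1 hw').2
    have hsub : nb G (insert c B0) w ⊆ nb G B0 w := by
      intro x hx
      rw [mem_nb] at hx ⊢
      exact ⟨fun e => hx.1 (Finset.mem_insert_of_mem e), hx.2⟩
    have hs1 : 1 + (g + 2).choose 2 ≤ (nb G B0 w').card :=
      (hwd.trans (Finset.card_le_card hsub)).trans
        (hmax' w (Finset.mem_erase.2 ⟨hwc, by simpa using hw0⟩))
    have hgap : (nb G B0 w').card + (g + 2) ≤ (nb G B0 c).card := by
      by_contra hlt
      have hle := hmax w' hw'0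
      set A := nb G B0 c with hA
      set bad := A.filter (fun u => u = w' ∨ G.Adj w' u) with hbad
      set A' := A \ bad with hA'
      have hcardA : A.card ≤ A'.card + 1 := by
        have hsplit : A'.card = A.card - bad.card :=
          Finset.card_sdiff_of_subset (Finset.filter_subset _ _)
        have hone : bad.card ≤ 1 := by
          rw [Finset.card_le_one]
          intro a ha b hb
          rw [hbad, Finset.mem_filter] at ha hb
          exact acyc hG hw'c.symm (mem_nb.1 ha.1).2 (mem_nb.1 hb.1).2 ha.2 hb.2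
        omega
      obtain ⟨D, hDA, hDcard⟩ := Finset.exists_subset_card_eq
        (show A.card - (nb G B0 w').card ≤ A'.card by omega)
      have hDsub : ∀ x ∈ D, x ∈ A ∧ x ≠ w' ∧ ¬ G.Adj w' x := by
        intro x hx
        have := hDA hx
        rw [hA', Finset.mem_sdiff, hbad, Finset.mem_filter] at this
        exact ⟨this.1, fun e => this.2 ⟨this.1, Or.inl e⟩, fun e => this.2 ⟨this.1, Or.inr e⟩⟩
      have hdisj : Disjoint B0 D := by
        rw [Finset.disjoint_left]
        intro x hx hxD
        exact (mem_nb.1 (hDsub x hxD).1).1 hx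
      apply h (B0 ∪ D) Finset.subset_union_left
      · rw [Finset.card_union_of_disjoint hdisj, hDcard]
        omega
      · have hcB : c ∉ B0 ∪ D := by
          rw [Finset.mem_union]
          rintro (e | e)
          · exact hc e
          · exact (mem_nb.1 (hDsub c e).1).2.ne rfl
        have hwB : w' ∉ B0 ∪ D := by
          rw [Finset.mem_union]
          rintro (e | e)
          · exact hw'0 e
          · exact (hDsub w' e).2.1 rfl
        have ec : (nb G (B0 ∪ D) c).card = (nb G B0 w').card := by
          have : nb G (B0 ∪ D) c = A \ D := by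
            ext x
            rw [mem_nb, Finset.mem_sdiff, hA, mem_nb, Finset.mem_union]
            tauto
          rw [this, Finset.card_sdiff_of_subset (fun x hx => (hDsub x hx).1), hDcard]
          omega
        have ew : nb G (B0 ∪ D) w' = nb G B0 w' := by
          ext x
          rw [mem_nb, mem_nb, Finset.mem_union]
          constructor
          · rintro ⟨h1, h2⟩
            exact ⟨fun e => h1 (Or.inl e), h2⟩
          · rintro ⟨h1, h2⟩
            refine ⟨?_, h2⟩
            rintro (e | e)
            · exact h1 e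
            · exact (hDsub x e).2.2 h2
        have hall : ∀ x, x ∉ B0 ∪ D → (nb G (B0 ∪ D) x).card ≤ (nb G B0 w').card := by
          intro x hx
          by_cases hxc : x = c
          · rw [hxc, ec]
          · have h1 : nb G (B0 ∪ D) x ⊆ nb G B0 x := by
              intro y hy
              rw [mem_nb] at hy ⊢
              exact ⟨fun e => hy.1 (Finset.mem_union_left _ e), hy.2⟩
            refine (Finset.card_le_card h1).trans (hmax' x (Finset.mem_erase.2 ⟨hxc, ?_⟩))
            rw [Finset.mem_compl]
            exact fun e => hx (Finset.mem_union_left _ e)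
        exact Or.inl ⟨c, w', hcB, hwB, hw'c.symm, fun x hx => by rw [ec]; exact hall x hx,
          fun x hx => by rw [ew]; exact hall x hx⟩
    have hch2 : (g + 1 + 2).choose 2 = (g + 2).choose 2 + (g + 2) := choose_two_succ (g + 2)
    have hch3 : (g + 1 + 3).choose 3 = (g + 3).choose 3 + (g + 1 + 2).choose 2 :=
      choose_three_succ (g + 3)
    refine ⟨⟨c, hc, by omega⟩, ?_⟩
    have h3 := E_ge G B0 hc
    omega

end

theorem six_choose (t : ℕ) : 6 * (t + 3).choose 3 = (t + 1) * (t + 2) * (t + 3) := by
  induction t with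
  | zero => decide
  | succ t ih =>
    have h2 : 2 * (t + 3).choose 2 = (t + 3) * (t + 2) := by
      rw [Nat.choose_two_right]
      have : 2 ∣ (t + 3) * (t + 3 - 1) := by
        have := Nat.even_mul_pred_self (t + 3)
        exact this.two_dvd
      rw [Nat.mul_div_cancel' this]
      rfl
    rw [show t + 1 + 3 = (t + 3) + 1 from rfl, choose_three_succ (t + 3)]
    have : 6 * ((t + 3).choose 3 + (t + 3).choose 2) =
        3 * (2 * (t + 3).choose 2) + 6 * (t + 3).choose 3 := by ring
    rw [this, h2, ih]
    ring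

theorem N_eq (t : ℕ) : N t = (t + 1) + (t + 3).choose 3 := by
  unfold N
  have h : t ^ 3 + 6 * t ^ 2 + 17 * t + 12 = 6 * ((t + 1) + (t + 3).choose 3) := by
    rw [mul_add, six_choose]
    ring
  rw [h, Nat.mul_div_cancel_left _ (by norm_num)]

theorem f_le {V : Type} [Fintype V] {G : SimpleGraph V} (hG : G.IsAcyclic) {t : ℕ}
    (hn : Fintype.card V ≤ N t) : f G ≤ t := by
  by_contra hlt
  have hall : ∀ B : Finset V, B.card < t + 1 → ¬ Good G B := by
    intro B hB hgood
    have : f G ≤ B.card := Nat.sInf_le ⟨B, rfl, (good_iff G B).2 hgood⟩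
    omega
  obtain ⟨⟨c, _, _⟩, hE⟩ := key hG t ∅ (fun B _ hB => hall B (by simpa using hB))
  have : Nonempty V := ⟨c⟩
  have h1 := E_le hG
  rw [N_eq] at hn
  omega

/-! ### The extremal tree -/

/-- vertices: root, centres `j`, leaves at centre `j` -/
abbrev U (t : ℕ) : Type := Option (Σ j : Fin (t + 1), Option (Fin ((t + 2 - j.val).choose 2)))

def upar (t : ℕ) : U t → U t
  | none => none
  | some ⟨_, none⟩ => none
  | some ⟨j, some _⟩ => some ⟨j, none⟩

def udep (t : ℕ) : U t → ℕ
  | none => 0
  | some ⟨_, none⟩ => 1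
  | some ⟨_, some _⟩ => 2

theorem udep_upar (t : ℕ) (v : U t) (hv : v ≠ none) : udep t v = udep t (upar t v) + 1 := by
  rcases v with _ | ⟨i, _ | a⟩
  · exact absurd rfl hv
  · rfl
  · rfl

/-- the extremal tree -/
def T (t : ℕ) : SimpleGraph (U t) := X70.parGraph none (upar t)

theorem T_isTree (t : ℕ) : (T t).IsTree := X70.parGraph_isTree (udep_upar t)

theorem adj_iff (t : ℕ) (u v : U t) :
    (T t).Adj u v ↔ (u ≠ none ∧ upar t u = v) ∨ (v ≠ none ∧ upar t v = u) := by
  unfold T
  rw [X70.parGraph_adj]
  constructor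
  · exact fun h => h.2
  · intro h
    refine ⟨?_, h⟩
    rintro rfl
    rcases h with h | h
    · exact X70.par_ne (udep_upar t) h.1 h.2.symm
    · exact X70.par_ne (udep_upar t) h.1 h.2.symm

theorem adj_root (t : ℕ) (v : U t) : (T t).Adj none v ↔ ∃ j, v = some ⟨j, none⟩ := by
  rw [adj_iff]
  rcases v with _ | ⟨i, _ | a⟩
  · constructor
    · rintro (h | h)
      · exact absurd rfl h.1
      · exact absurd rfl h.1
    · rintro ⟨j, h⟩
      exact absurd h (by simp)
  · exact ⟨fun _ => ⟨i, rfl⟩, fun _ => Or.inr ⟨by simp, rfl⟩⟩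
  · constructor
    · rintro (h | h)
      · exact absurd rfl h.1
      · exact absurd (congrArg (udep t) h.2) (by simp [udep, upar])
    · rintro ⟨j, h⟩
      exact absurd (congrArg (udep t) h) (by simp [udep, upar])

theorem adj_centre (t : ℕ) (j : Fin (t + 1)) (v : U t) :
    (T t).Adj (some ⟨j, none⟩) v ↔ v = none ∨ ∃ a, v = some ⟨j, some a⟩ := by
  rw [adj_iff]
  rcases v with _ | ⟨i, _ | a⟩
  · exact ⟨fun _ => Or.inl rfl, fun _ => Or.inl ⟨by simp, rfl⟩⟩
  · constructor
    · rintro (h | h)
      · exact absurd (congrArg (udep t) h.2) (by simp [udep, upar])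
      · exact absurd (congrArg (udep t) h.2) (by simp [udep, upar])
    · rintro (h | ⟨b, h⟩)
      · exact absurd h (by simp)
      · exact absurd (congrArg (udep t) h) (by simp [udep, upar])
  · constructor
    · rintro (h | h)
      · exact absurd (congrArg (udep t) h.2) (by simp [udep, upar])
      · have h2 : (some ⟨i, none⟩ : U t) = some ⟨j, none⟩ := h.2
        simp only [Option.some.injEq, Sigma.mk.injEq] at h2
        obtain ⟨rfl, _⟩ := h2
        exact Or.inr ⟨a, rfl⟩
    · rintro (h | ⟨b, h⟩)
      · exact absurd h (by simp)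
      · simp only [Option.some.injEq, Sigma.mk.injEq] at h
        obtain ⟨rfl, _⟩ := h
        exact Or.inr ⟨by simp, rfl⟩

theorem adj_leaf (t : ℕ) (j : Fin (t + 1)) (a : Fin ((t + 2 - j.val).choose 2)) (v : U t) :
    (T t).Adj (some ⟨j, some a⟩) v ↔ v = some ⟨j, none⟩ := by
  rw [adj_iff]
  constructor
  · rintro (h | h)
    · exact h.2.symm
    · rcases v with _ | ⟨i, _ | b⟩
      · exact absurd rfl h.1
      · exact absurd (congrArg (udep t) h.2) (by simp [udep, upar])
      · exact absurd (congrArg (udep t) h.2) (by simp [udep, upar])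
  · rintro rfl
    exact Or.inl ⟨by simp, rfl⟩

theorem card_U (t : ℕ) : Fintype.card (U t) = N t + 1 := by
  have h : ∀ m : ℕ, ∑ j : Fin (m + 1), (1 + (m + 2 - j.val).choose 2) =
      (m + 1) + (m + 3).choose 3 := by
    intro m
    induction m with
    | zero => decide
    | succ m ih =>
      rw [Fin.sum_univ_succ]
      have h1 : ∀ j : Fin (m + 1), (m + 1 + 2 - (Fin.succ j).val) = m + 2 - j.val := by
        intro j
        rw [Fin.val_succ]
        omega
      simp only [h1, Fin.val_zero, Nat.sub_zero]
      have h3 : (m + 1 + 3).choose 3 = (m + 3).choose 3 + (m + 1 + 2).choose 2 :=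
        choose_three_succ (m + 3)
      rw [ih, h3]
      omega
  rw [N_eq, ← h t, Fintype.card_option, Fintype.card_sigma]
  congr 1
  apply Finset.sum_congr rfl
  intro j _
  rw [Fintype.card_option, Fintype.card_fin]
  omega

theorem not_good (t : ℕ) (B : Finset (U t)) (hB : B.card ≤ t) : ¬ Good (T t) B := by
  classical
  -- first centre outside `B`
  have hex : ∃ j : ℕ, ∃ h : j < t + 1, (some ⟨⟨j, h⟩, none⟩ : U t) ∉ B := by
    by_contra hcon
    have hsub : (Finset.univ.image (fun j : Fin (t + 1) => (some ⟨j, none⟩ : U t))) ⊆ B := by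
      intro x hx
      obtain ⟨j, _, rfl⟩ := Finset.mem_image.1 hx
      by_contra hj
      exact hcon ⟨j.val, j.isLt, hj⟩
    have h1 := Finset.card_le_card hsub
    rw [Finset.card_image_of_injective _ (by
      intro a b hab
      simp only [Option.some.injEq, Sigma.mk.injEq] at hab
      exact hab.1), Finset.card_univ, Fintype.card_fin] at h1
    omega
  obtain ⟨hj, hjB⟩ := Nat.find_spec hex
  have hmin : ∀ i, i < Nat.find hex → ∀ h : i < t + 1, (some ⟨⟨i, h⟩, none⟩ : U t) ∈ B := by
    intro i hi h
    by_contra hcon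
    exact Nat.find_min hex hi ⟨h, hcon⟩
  generalize Nat.find hex = j at hj hjB hmin
  -- the centres before `j`
  set P : Finset (U t) := (Finset.univ : Finset (Fin j)).image
    (fun i => (some ⟨⟨i.val, by omega⟩, none⟩ : U t)) with hP
  have hPB : P ⊆ B := by
    intro x hx
    obtain ⟨i, _, rfl⟩ := Finset.mem_image.1 hx
    exact hmin i.val i.isLt _
  have hPc : P.card = j := by
    rw [hP, Finset.card_image_of_injective, Finset.card_univ, Fintype.card_fin]
    intro a b hab
    simp only [Option.some.injEq, Sigma.mk.injEq, Fin.mk.injEq] at hab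
    exact Fin.ext hab.1
  have hBP : (B \ P).card = B.card - j := by
    rw [Finset.card_sdiff_of_subset hPB, hPc]
  have hjle : j ≤ B.card := hPc ▸ Finset.card_le_card hPB
  -- choose numbers
  obtain ⟨m, hm⟩ : ∃ m, t + 2 - j = m + 2 := ⟨t - j, by omega⟩
  have hC : (m + 2).choose 2 = (m + 1).choose 2 + (m + 1) := choose_two_succ (m + 1)
  have hC2 : (m + 1).choose 2 = m.choose 2 + m := choose_two_succ m
  -- degree of centre `j`
  have hdj : 1 + (m + 2).choose 2 ≤ (nb (T t) B (some ⟨⟨j, hj⟩, none⟩)).card + (t - j) := by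
    set L : Finset (U t) := insert none ((Finset.univ : Finset (Fin ((t + 2 - j).choose 2))).image
      (fun a => (some ⟨⟨j, hj⟩, some a⟩ : U t))) with hL
    have hLc : L.card = 1 + (m + 2).choose 2 := by
      rw [hL, Finset.card_insert_of_notMem (by simp), Finset.card_image_of_injective,
        Finset.card_univ, Fintype.card_fin, hm]
      · omega
      · intro a b hab
        simpa using hab
    have hsub : L ⊆ nb (T t) B (some ⟨⟨j, hj⟩, none⟩) ∪ (B \ P) := by
      intro x hx
      rw [Finset.mem_union]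
      have hadj : (T t).Adj (some ⟨⟨j, hj⟩, none⟩) x := by
        rw [adj_centre]
        rcases Finset.mem_insert.1 hx with rfl | hx
        · exact Or.inl rfl
        · obtain ⟨a, _, rfl⟩ := Finset.mem_image.1 hx
          exact Or.inr ⟨a, rfl⟩
      by_cases hxB : x ∈ B
      · right
        rw [Finset.mem_sdiff]
        refine ⟨hxB, ?_⟩
        intro hxP
        obtain ⟨i, _, rfl⟩ := Finset.mem_image.1 hxP
        rcases Finset.mem_insert.1 hx with h | h
        · simp at h
        · obtain ⟨a, _, h⟩ := Finset.mem_image.1 h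
          simp only [Option.some.injEq, Sigma.mk.injEq] at h
          obtain ⟨h1, h2⟩ := h
          rw [Fin.mk.injEq] at h1
          have := i.isLt
          omega
      · exact Or.inl (mem_nb.2 ⟨hxB, hadj⟩)
    have h1 := (Finset.card_le_card hsub).trans (Finset.card_union_le _ _)
    rw [hLc, hBP] at h1
    omega
  -- all other degrees are smaller
  have hother : ∀ v, v ∉ B → v ≠ some ⟨⟨j, hj⟩, none⟩ →
      (nb (T t) B v).card < (nb (T t) B (some ⟨⟨j, hj⟩, none⟩)).card := by
    intro v hv hvj
    rcases v with _ | ⟨i, _ | a⟩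
    · -- root
      have hsub : nb (T t) B none ⊆ ((Finset.univ : Finset (Fin (t + 1))).filter
          (fun i => j ≤ i.val)).image (fun i => (some ⟨i, none⟩ : U t)) := by
        intro x hx
        obtain ⟨hxB, hx2⟩ := mem_nb.1 hx
        obtain ⟨i, rfl⟩ := (adj_root t x).1 hx2
        refine Finset.mem_image.2 ⟨i, Finset.mem_filter.2 ⟨Finset.mem_univ _, ?_⟩, rfl⟩
        by_contra hlt
        exact hxB (hmin i.val (by omega) i.isLt)
      have h1 := (Finset.card_le_card hsub).trans Finset.card_image_le
      have h2 : ((Finset.univ : Finset (Fin (t + 1))).filter (fun i => j ≤ i.val)).card ≤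
          t + 1 - j := by
        have h3 : ((Finset.univ : Finset (Fin (t + 1))).filter (fun i => j ≤ i.val)).card ≤
            (Finset.Ico j (t + 1)).card := by
          apply Finset.card_le_card_of_injOn (fun i => i.val)
          · intro i hi
            have := (Finset.mem_filter.1 hi).2
            simp only [Finset.coe_Ico, Set.mem_Ico]
            exact ⟨this, i.isLt⟩
          · intro a _ b _ h
            exact Fin.ext h
        rwa [Nat.card_Ico] at h3
      omega
    · -- centre
      have hij : j < i.val := by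
        by_contra hlt
        rcases Nat.lt_or_ge i.val j with h | h
        · exact hv (hmin i.val h i.isLt)
        · have : i = ⟨j, hj⟩ := Fin.ext (by simp only; omega)
          exact hvj (by rw [this])
      have hsub : nb (T t) B (some ⟨i, none⟩) ⊆
          insert none ((Finset.univ : Finset (Fin ((t + 2 - i.val).choose 2))).image
            (fun a => (some ⟨i, some a⟩ : U t))) := by
        intro x hx
        rcases (adj_centre t i x).1 (mem_nb.1 hx).2 with rfl | ⟨a, rfl⟩
        · exact Finset.mem_insert_self _ _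
        · exact Finset.mem_insert_of_mem (Finset.mem_image.2 ⟨a, Finset.mem_univ _, rfl⟩)
      have h1 := (Finset.card_le_card hsub).trans ((Finset.card_insert_le _ _).trans
        (Nat.succ_le_succ Finset.card_image_le))
      rw [Finset.card_univ, Fintype.card_fin] at h1
      have h2 : (t + 2 - i.val).choose 2 ≤ (m + 1).choose 2 := Nat.choose_le_choose 2 (by omega)
      simp only [Nat.succ_eq_add_one] at h1
      omega
    · -- leaf
      have hsub : nb (T t) B (some ⟨i, some a⟩) ⊆ {some ⟨i, none⟩} := by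
        intro x hx
        rw [Finset.mem_singleton]
        exact (adj_leaf t i a x).1 (mem_nb.1 hx).2
      have h1 := Finset.card_le_card hsub
      rw [Finset.card_singleton] at h1
      omega
  rintro (⟨u, v, hu, hv, hne, h1, h2⟩ | hcard)
  · by_cases huj : u = some ⟨⟨j, hj⟩, none⟩
    · have hvj : v ≠ some ⟨⟨j, hj⟩, none⟩ := fun e => hne (huj.trans e.symm)
      have h3 := hother v hv hvj
      have h4 := h2 _ hjB
      omega
    · have h3 := hother u hu huj
      have h4 := h1 _ hjB
      omega
  · rw [card_U, N_eq] at hcard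
    have : 1 ≤ (t + 3).choose 3 := Nat.choose_pos (by omega)
    omega

theorem le_f (t : ℕ) : t + 1 ≤ f (T t) := by
  apply le_csInf
  · refine ⟨(Finset.univ : Finset (U t)).card, Finset.univ, rfl, Or.inr ?_⟩
    have : IsEmpty {v : U t // v ∉ (Finset.univ : Finset (U t))} :=
      ⟨fun x => x.2 (Finset.mem_univ _)⟩
    rw [Nat.card_of_isEmpty]
    norm_num
  · rintro k ⟨B, rfl, hB⟩
    by_contra hlt
    exact not_good t B (by omega) ((good_iff _ _).1 hB)

/-- **Result (Q1 is true).**  For every `t ≥ 1`: (i) every forest on at most `N(t)` vertices has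
`f ≤ t`; (ii) some forest on `N(t) + 1` vertices has `f ≥ t + 1`. -/
theorem result : ∀ t : ℕ, 1 ≤ t →
    (∀ (V : Type) [Fintype V] (F : SimpleGraph V), F.IsAcyclic → Fintype.card V ≤ N t →
      f F ≤ t) ∧
    ∃ (V : Type) (_ : Fintype V) (F : SimpleGraph V), F.IsAcyclic ∧ Fintype.card V = N t + 1 ∧
      t + 1 ≤ f F := by
  intro t _
  refine ⟨fun V _ F hF hn => f_le hF hn, U t, inferInstance, T t, (T_isTree t).isAcyclic,
    card_U t, le_f t⟩

end Pool.Agent.Results.MP_fe24f9_co.SharpThreshold
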